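import Pool.Agent.H21.GH.Pack
import Pool.Graph.R_pool_sql_team_seeded_2aa45f1a.Results.MP_b8862a_ag.TrilinearHypersurfaces

/-!
# MP_b8862a_ag: the motivated Mumford-Tate conjecture and graph hypersurfaces

For a finite simple graph `G` let `Ĝ` be the cone over `G` (one more vertex, joined to all vertices of
`G`). The graph hypersurface `X_G = kirS ℚ G` is the zero set of the determinant of the reduced
Laplacian of `Ĝ` with variable weights of the edges. By the theorem of Kirchhoff this determinant is the
sum of the products `∏_{e ∈ T} x_e` over the spanning trees `T` of `Ĝ`.

Let `A` be the category of André motives over `ℚ` (a semisimple abelian category), with the cohomology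
with compact supports `H^j(X)` with values in `A` (`D`, with the standard properties `IsMotives D`), such
that every motive is a direct summand of a Tate twist of the motive of a smooth projective variety
(`IsGenerated D`), and with its realizations `R` (the Betti realization with its Hodge structure, the
`ℓ`-adic realization with the action of the Galois group, the comparison and the motivated classes).
`MumfordTate R M` is the assertion of the conjecture for the classes of `M`: the Hodge classes of `M`
are motivated, the Tate classes of `M` are linear combinations of motivated classes, and the Galois
group acts semisimply on the `ℓ`-adic realization of `M`. (For all `M` in the tensor category generated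
by a motive this is the equality of the Mumford-Tate group, the motivic Galois group and the identity
component of the `ℓ`-adic monodromy group.)

**Theorem.** The conjecture is true for all motives over `ℚ` if and only if it is true for all direct
summands of the Tate twists of the motives `H^j(X_G)` of the graph hypersurfaces `X_G`, `G` a finite
graph.
-/

set_option autoImplicit false

open CategoryTheory Limits AlgebraicGeometry Pool.Agent.Y116.UV Pool.Agent.Z125.UN
  Pool.Agent.Q282.UM Pool.Agent.H21.GH Pool.Agent.Results.MP_b8862a_ag.TrilinearHypersurfaces

namespace Pool.Agent.Results.MP_b8862a_ag.GraphHypersurfaces

universe v u

/-- **The motivated Mumford-Tate conjecture and graph hypersurfaces.** See the explanations above. -/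
theorem result {A : Type u} [Category.{v} A] [Abelian A] {K : Type} [Field K] {Γ : Type} [Group Γ]
    [TopologicalSpace Γ] (R : Realizations A K Γ) (hR : IsRealizations R) (D : Motives ℚ A)
    (hD : IsMotives D) (hg : IsGenerated D) :
    (∀ M : A, MumfordTate R M) ↔ ForKir D (MumfordTate R) :=
  pack_kir (sumClosed_mt hR) hD Pool.Agent.Q193.LT.frac_rat hg

end Pool.Agent.Results.MP_b8862a_ag.GraphHypersurfaces
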