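import Pool.Agent.H4.HW.Main

/-!
# The motivated Mumford-Tate conjecture for motives with an isolated Hodge number

Let `M = ⨁ M_b` be a motive over a field `k`, with the Tate motive `ℚ(-1)` as one of the summands (it
is spanned by the vector `o` of the basis), and let `S` be a set of summands, not containing `ℚ(-1)`, such
that for `b ∈ S`

* `M_b` is polarised of weight `w`, its Hodge structure is simple with endomorphism ring `ℚ`;
* `M_b` has an ISOLATED Hodge number `h^{a, w - a} = 1`: for Hodge weights `r`, `s`, `t` of `M_b` (the
  numbers `p` with `h^{p, w - p} ≠ 0`) one has `a + r = s + t` only if `s = a`, or `t = a`, or `a + r = w`;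
* for Hodge weights `t ≠ a` of `M_b` the number `t - a` is not a difference of two Hodge weights of
  any other summand `M_c`.

There is no condition on the other Hodge numbers of `M_b` and on the other summands. Examples of isolated
Hodge numbers: `h^{w, 0} = 1` if `w / 3 < p < 2 w / 3` for all other `p ≠ 0` with `h^{p, w - p} ≠ 0` (for
instance motives of K3 type, of all weights); `h^{0, 0} = 1` in weight zero for the Hodge weights `0`,
`± (m - 1)`, ..., `± (m - g)`, `m ≥ 2 g`, of the standard motive of a Siegel modular form of degree `g` and
weight `m`; any Hodge number `1` if the Hodge weights have no additive relations; all motives of rank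
two which are not orthogonal.

The realizations are given in a basis of the Betti realization, indexed by `T`, adapted to the
decomposition (`M.blk t` is the summand of the basis vector `t`). `M.D` is the Hodge operator, `mtLie` the
Lie algebra of the Mumford-Tate group, `ρ` is the `ℓ`-adic representation of the Galois group (any
compact group) and `LieImage ρ` the Lie algebra of its image. The only arithmetic fact which is used
is the Hodge-Tate decomposition, with the theorem of Sen that the Hodge-Tate operator is in the
extension to `ℂ_ℓ` of the Lie algebra of the image (`IsRealization`).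

**Theorem.** (1) The Mumford-Tate conjecture, that the Lie algebra of the image of the Galois group is the
extension to `ℚ_ℓ` of the Lie algebra of the Mumford-Tate group, holds for `M` if and only if it holds for the
sum `N` of the summands which are not in `S`, and for `b ∈ S` the `ℓ`-adic realization of `M_b` is
irreducible and only scalars commute with an open subgroup of the Galois group (`TateEnd`: this is the
semisimplicity and the Tate conjecture for the endomorphisms of `M_b`).

(2) The same is true for the motivated conjecture (the Lie algebras of the Mumford-Tate group, of the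
motivic Galois group and of the image of the Galois group agree), for every Lie algebra `𝔪` with the
properties of the Lie algebra of the motivic Galois group stated in `IsMotivic`.

(3) If `N` is the Tate motive `ℚ(-1)`, the conjectures for `M` are equivalent to `TateEnd` for all `b ∈ S`.

(4) The conjectures for `M` imply those for all partial sums of the `M_b` (for instance without `ℚ(-1)`).

The proof. Let `𝔤` be one of the Lie algebras, with coefficients in `ℂ` or `ℂ_ℓ`. It contains an operator `Θ`
with the Hodge weights as eigenvalues, so it is graded by the differences of Hodge weights. Let `v` be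
an eigenvector for `a`. By the conditions on the Hodge weights a homogeneous element of `𝔤` which moves
`v` is zero on the other summands and on `M_b` it is an operator `z ↦ ψ(y, z) x ∓ ψ(x, z) y` of rank at
most two, where `ψ` is the polarization and `y` an eigenvector for `w - a`. With the irreducibility of
`M_b` (which is shown for `𝔤` from the hypotheses over `ℚ`, or over `ℚ_ℓ` for the group, by Burnside's
theorem and the `ℓ`-adic logarithm) all operators `z ↦ ψ(y, z) x ∓ ψ(x, z) y` on `M_b` are shown
to be in `𝔤`.
-/

set_option autoImplicit false

namespace Pool.Agent.Results.MP_b8862a_ag.IsolatedHodgeNumber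

open Pool.Agent.H4.HW

open scoped Classical in
/-- **Theorem.** The (motivated) Mumford-Tate conjecture for motives with isolated Hodge numbers. -/
theorem result {T B : Type} [Fintype T] [DecidableEq T]
    -- the Betti realization; the summands `M_b` with `b ∈ S` have an isolated Hodge number
    (M : Betti T B) (S : Set B) (hM : M.IsBetti S)
    -- the `ℓ`-adic realization
    {ℓ : ℕ} [Fact ℓ.Prime] {Γ : Type} [Group Γ] [TopologicalSpace Γ] [IsTopologicalGroup Γ]
    [CompactSpace Γ] (ρ : Γ →* Matrix T T ℚ_[ℓ]) (hρ : M.IsRealization S ρ) :
    -- the Mumford-Tate conjecture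
    (MumfordTate M.D ρ ↔ (∀ b ∈ S, M.TateEnd b ρ) ∧
      MumfordTate (M.part Sᶜ M.D) (fun g => M.part Sᶜ (ρ g))) ∧
    -- the motivated Mumford-Tate conjecture
    (∀ 𝔪, M.IsMotivic S ρ 𝔪 → (Motivated M.D 𝔪 ρ ↔ (∀ b ∈ S, M.TateEnd b ρ) ∧
      Motivated (M.part Sᶜ M.D) (M.parts Sᶜ 𝔪) (fun g => M.part Sᶜ (ρ g)))) ∧
    -- the case where the only other summand is the Tate motive
    ((∀ t, M.blk t ∈ S ∨ t = M.o) → (MumfordTate M.D ρ ↔ ∀ b ∈ S, M.TateEnd b ρ) ∧
      ∀ 𝔪, M.IsMotivic S ρ 𝔪 → (Motivated M.D 𝔪 ρ ↔ ∀ b ∈ S, M.TateEnd b ρ)) ∧
    -- direct summands
    ∀ J : Set B, (MumfordTate M.D ρ → MumfordTate (M.part J M.D) (fun g => M.part J (ρ g))) ∧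
      ∀ 𝔪, Motivated M.D 𝔪 ρ →
        Motivated (M.part J M.D) (M.parts J 𝔪) (fun g => M.part J (ρ g)) :=
  ⟨Betti.main₁ hM hρ, fun _ hm => Betti.main₂ hM hρ hm, fun hS => Betti.main₃ hM hρ hS, fun J =>
    ⟨fun h => Betti.mumfordTate_part J hM.basis hρ.continuous hρ.block h,
      fun _ h => Betti.motivated_part J hM.basis hρ.continuous hρ.block h⟩⟩

end Pool.Agent.Results.MP_b8862a_ag.IsolatedHodgeNumber
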