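import Pool.Agent.H20.TK.Final

/-!
# The motivated Mumford-Tate conjecture for sums of motives with isolated Hodge numbers

Let `M = ⨁ M_b` be a motive over a field `k`, with the Tate motive `ℚ(-1)` as one of the summands (it
is spanned by the vector `o` of the basis), and let `S` be a set of summands, not containing `ℚ(-1)`, such
that for `b ∈ S` (`Isolated`)

* `M_b` is polarised of weight `w`, its Hodge structure is simple with endomorphism ring `ℚ`;
* `M_b` has an ISOLATED Hodge number `h^{a, w - a} = 1`: for Hodge weights `r`, `s`, `t` of `M_b` (the
  numbers `p` with `h^{p, w - p} ≠ 0`) one has `a + r = s + t` only if `s = a`, or `t = a`, or `a + r = w`;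
* for Hodge weights `t ≠ a` of `M_b` the number `t - a` is not a difference of two Hodge weights of
  another summand `M_c`, except that `M_c` may be ANY summand in `S` which is COMPATIBLE with `M_b`: the
  forms on `M_b` and `M_c` are of the same kind (`SameKind`: both are alternating, or both are symmetric
  of ranks `3`, `5`, `6`, `7` or at least `9`), or the Lie algebras of the forms on `M_b` and `M_c` are
  simple (`IsGood`: the form is alternating, or the rank is three or at least five) and have different
  Hodge numbers (`adHodge`; they are the Hodge structures `Sym² M_b (w)` for alternating forms, and
  `Λ² M_b (w)` for symmetric forms). So there may be any number of summands of odd weight, or of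
  motives of K3 type (Hodge numbers `1, n - 2, 1`, `n ≠ 2, 4, 8`), with the same Hodge numbers, and also
  isomorphic ones.

Examples of isolated Hodge numbers: all motives of rank two and odd weight; motives of K3 type; motives
of rank four with Hodge weights `0`, `k - 2`, `k - 1`, `2 k - 3`, `k ≥ 4` (the spin motives of Siegel
modular forms of degree two and weight `k`); any Hodge number `1` if the Hodge weights have no additive
relations except `p + (w - p) = w`.

**Theorem.** The Mumford-Tate conjecture holds for `M` if and only if it holds for the sum `N` of the
summands which are not in `S`, and the following cases of the Tate conjecture are true: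

* `TateEnd` for `b ∈ S`: the `ℓ`-adic realization of `M_b` is irreducible, and only scalars commute with an
  open subgroup of the Galois group;
* `TateHom`: for different `b`, `c` in `S` with polarizations of the same kind the maps `M_c → M_b(m)` of
  the `ℓ`-adic realizations which commute with an open subgroup of the Galois group, where `m` is the half
  of the difference of the weights, are the `ℚ_ℓ`-linear combinations of the maps of Hodge structures.

The motivated conjecture (the Lie algebras of the Mumford-Tate group, of the motivic Galois group and of
the image of the Galois group agree) holds for `M` if and only if it holds for `N`, and `TateEnd` and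
`TateHom` hold, and these maps of Hodge structures are motivated (`MotHom`); here `𝔪` may be every Lie
algebra with the properties of the Lie algebra of the motivic Galois group stated in `Betti.IsMotivic`.
If `N` is the Tate motive `ℚ(-1)`, both conjectures hold for `M` and for all partial sums of the `M_b` if
`TateEnd` and `TateHom` (and `MotHom`) hold.

These cases of the Tate conjecture (known for instance if the `M_b` are parts of the `H^1` of abelian
varieties, by Faltings) follow from local conditions. Let `n_b` be the rank of `M_b`. `TateEnd` is true for
`b ∈ S` if (`IsControlled`)

(1) for `1 ≤ d ≤ n_b / 2`: there is a specialization of `M_b` to a number field `F` and a prime `p ≠ ℓ`,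
unramified in `F`, such that at the places above `p` inertia acts unipotently and the
weight-monodromy property holds (good reduction is allowed), and at one of these places `d` is not the
sum of the lengths of a family of Jordan blocks of the monodromy which contains at most half of the
blocks of each length; or the characteristic polynomials of the powers of some element of
`Γ` have no divisor of degree `d`;

(2) for `1 ≤ d ≤ n_b / 2` (`d` even, if the form is alternating): for some element of `Γ` which acts
unipotently, `d` is not the sum of the lengths of a family of its Jordan blocks which contains an even
number of blocks of each odd length (alternating forms), or of each even length (symmetric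
forms); or the characteristic polynomials of the powers of some element of `Γ` have no
divisor of degree `d`;

(3) for every prime number `p` which divides `n_b`: for some element of `Γ` which acts unipotently the number
of Jordan blocks of some length is not divisible by `p`, or some `γ` in `Γ` is such that for all `e > 0`
the dimension of the kernel of some polynomial in `γ ^ e` is not divisible by `p`.

For example (1), (2), (3) hold if there is a place with maximally unipotent monodromy (one block) such
that the weight-monodromy property holds at all places above the same prime.

`TateHom` and `MotHom` are true (if `TateEnd` is) if for different `b`, `c` in `S` of the same kind (with `m`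
as above) there are no maps of Hodge structures `M_c → M_b(m)`, and the `ℓ`-adic realizations have
different ranks, or some element `γ` of the Galois group acts unipotently on them, with different
Jordan types, or, in general, for all `e > 0` the dimension of the kernel of some polynomial in `γ ^ e` is
not the same on `M_b` and `M_c(-m)` (`Distinct`). So there is a criterion for the (motivated) Mumford-Tate
conjecture for all partial sums with conditions on the Hodge structures, on single elements of the
Galois group and on places of number fields only.

The proof. (A) `TateEnd` from (1), (2), (3): a stable isotropic subspace `U` of dimension `d` is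
excluded by (1): by purity at all the places above `p` and the `ℓ`-adic six exponentials theorem (with
three primes of good reduction) `U` takes at most half of the blocks of each length. So the
representation is semisimple, also for subgroups of finite index. Then (1) excludes isotropic subspaces
stable under a subgroup of finite index, and (2) excludes nondegenerate ones, where the number of
blocks of each odd (even) length is even if the form is alternating (symmetric). The commutant of a
subgroup of finite index is a division algebra; a subfield of degree `e` acts on the images of
powers of the logarithms of the unipotent elements, so that `e` divides the numbers of Jordan blocks,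
and (3) shows `e = 1`.

(B) Let `𝔤` be the Lie algebra of the Mumford-Tate group, or of the image of the Galois group. The
Hodge (Hodge-Tate) operator is in its extension to `ℂ` (to `ℂ_ℓ`, by Sen). For a set `J` of summands which
contains `b`, and such that for `c ∈ J` the differences `t - a` do not occur in `M_c`, the core theorem of
`IsolatedHodgeNumber` (rank two operators) shows that `𝔤` has, for each skew operator `X` of `M_b`, an element
which is `X` on `M_b` and zero on the other `M_c`, `c ∈ J` (`core_cut`). We apply it to the summands which are
not in `S` or not compatible with `M_b`, and `b`.

(C) So the ideal `𝔥` of the elements of `𝔤` which are zero on the summands outside the set `G` of the good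
summands in `S` is mapped onto the Lie algebra of the form on each `M_b`, `b ∈ G`. These Lie algebras are
simple (`SpL_simple` for symmetric forms over any field of characteristic zero: an ideal is stable under
the projections to the entries with exactly one index in `{i, j}`, in an orthogonal basis). By Goursat's
lemma `𝔥` is the set of all the elements of the product which are compatible with the links
(`goursat_mixed`). A link of the Lie algebras of the forms on `M_b` and `M_c` is compatible with the
bracket with the Hodge operator, so that the Hodge numbers of the two Lie algebras are equal
(`finrank_link`, `adHodge_eq`). So links are only possible between summands of the same kind. They are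
induced by a linear map `g : M_c → M_b`, unique up to scalars and compatible with the forms: for
alternating forms, because a link maps elements of rank one (the extremal elements) to elements of
rank one. For symmetric forms, let `ψ` be an isomorphism of `𝔰𝔬(V)` and `𝔰𝔬(W)`, and let `n ≠ 2, 8` be the
dimension of `V`. As the traces of `ad(X)^2` and `ad(X)^4` are `(n - 2) tr X^2` and
`(n - 8) tr X^4 + 3 (tr X^2)^2` (`trace_ad2`, `trace_ad4`), `ψ` preserves the traces of `X^2` and `X^4`, and so the
traces of all words `X Y Z U` (`pr4`). So there is a linear map `Φ` from `End V` to `End W` with
`Φ(X Y) = ψ(X) ψ(Y)`. The difference of `Φ(X Y Z)` and `ψ(X) ψ(Y) ψ(Z)` is symmetric in `X`, `Y`, `Z`, is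
equal to its adjoint (its trace form with `𝔰𝔬(W)` is zero), and its adjoint is the negative of the
difference for `Z`, `Y`, `X`. So it is zero, `Φ` is an isomorphism of algebras (`exists_phi`), and is induced
by a linear map by the theorem of Skolem and Noether (`exists_simil`).

For `X` in `𝔤` one obtains `X g - g X = λ(X) g`, where `2 λ(X)` is the
difference of the weights times the coordinate of `X` on `ℚ(-1)` (`link_rel`). Applied to the Hodge
operator, whose eigenvalues are integers, it shows that the difference of the weights is an even
number `2 m` and `g` is a morphism of Hodge structures `M_c → M_b(m)`. On the Galois side `g` is a morphism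
`M_c → M_b(m)` over an open subgroup (`exp_hom`, with the `ℓ`-adic logarithm). So `𝔤` is the set of the
matrices which satisfy the similitude equations, whose parts on the other summands are parts of
elements of `𝔤`, and which commute with these morphisms (`mem_of`). By `TateHom` the linear equations
given by the morphisms are the same for the two Lie algebras (after extension to `ℚ_ℓ`).
-/

set_option autoImplicit false

namespace Pool.Agent.Results.MP_b8862a_ag.IsolatedHodgeSums

open Pool.Agent.H4.HW Pool.Agent.H20.TC Pool.Agent.H20.TK

/-- **Theorem.** The (motivated) Mumford-Tate conjecture for sums of motives with isolated Hodge
numbers. -/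
theorem result {T B : Type} [Fintype T] [DecidableEq T]
    -- the Betti realization; the summands `M_b` with `b ∈ S` have an isolated Hodge number
    (M : Betti T B) (S : Set B) (hM : IsBetti M S)
    -- the `ℓ`-adic realization
    {ℓ : ℕ} [Fact ℓ.Prime] {Γ : Type} [Group Γ] [TopologicalSpace Γ] [IsTopologicalGroup Γ]
    [CompactSpace Γ] (ρ : Γ →* Matrix T T ℚ_[ℓ]) (hρ : M.IsRealization S ρ) :
    -- the conjecture is equivalent to cases of the Tate conjecture and the conjecture outside `S`
    (MumfordTate M.D ρ ↔ (∀ b ∈ S, M.TateEnd b ρ) ∧ TateHom M S ρ ∧ MTPart M Sᶜ ρ) ∧
    (∀ 𝔪, M.IsMotivic S ρ 𝔪 → (Motivated M.D 𝔪 ρ ↔
      (∀ b ∈ S, M.TateEnd b ρ) ∧ TateHom M S ρ ∧ MotHom M S 𝔪 ∧ MotPart M Sᶜ 𝔪 ρ)) ∧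
    ((∀ t, M.blk t ∈ S ∨ t = M.o) → (∀ b ∈ S, M.TateEnd b ρ) → TateHom M S ρ →
      ∀ J, MTPart M J ρ ∧ ∀ 𝔪, M.IsMotivic S ρ 𝔪 → MotHom M S 𝔪 → MotPart M J 𝔪 ρ) ∧
    -- these cases of the Tate conjecture follow from local conditions
    (∀ b ∈ S, IsControlled M ρ b → M.TateEnd b ρ) ∧
    ((∀ b ∈ S, M.TateEnd b ρ) → Distinct M S ρ → TateHom M S ρ ∧ ∀ 𝔪, MotHom M S 𝔪) :=
  final hM hρ

end Pool.Agent.Results.MP_b8862a_ag.IsolatedHodgeSums
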