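import Pool.Agent.H20.TB.Main2

/-!
# The motivated Mumford-Tate conjecture (the last equality) for motives of odd weight, from the
Jordan types of local monodromy operators

Let `M_i` (`i` in a finite set) be objects of the category of motives of André over a finitely generated
field `k`, pure of the same odd weight, with polarizations (motivated classes; alternating forms), of
ranks `n_i`; `V_i` is the `ℓ`-adic realization of `M_i`, for a fixed prime `ℓ`, a representation of
`Γ = Gal(k̄/k)`, and `χ` is the similitude character, a power of the cyclotomic character. Nothing is
assumed on the semisimplicity of `V_i`, on endomorphisms, Hodge numbers or Frobenius eigenvalues.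

Suppose that for every `i`

(1) for `1 ≤ d ≤ n_i / 2`: there is a specialization of `M_i` to a number field `F` and a prime `p ≠ ℓ`,
unramified in `F`, such that at the places above `p` inertia acts unipotently and the
weight-monodromy property holds (good reduction is allowed; known for complete intersections, by
Scholze), and at one of these places `d` is not the sum of the lengths of a family of Jordan blocks of
the monodromy which contains at most half of the blocks of each length; or the characteristic
polynomials of the powers of some element of `Γ` have no divisor of degree `d`;

(2) for even `d` with `2 ≤ d ≤ n_i / 2`: for some element of `Γ` which acts unipotently, `d` is not the sum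
of the lengths of a family of its Jordan blocks which contains an even number of blocks of each odd
length; or the characteristic polynomials of the powers of some element of `Γ` have no divisor of
degree `d`;

(3) some element of `Γ` acts unipotently on all the `V_j`, and on `V_i` its Jordan type is one of the
following: (a) some even number is the length of exactly one block, there is a block of length one, and
there are no blocks of the lengths `3, 5, 7, ...` (for instance an ordinary double point; or `N ^ 3 ≠ 0`
for a Calabi-Yau threefold, with no block of length `3`); (b) there is only one block (maximally
unipotent monodromy), and `n_i = 2`, or the eigenvalues of some element of `Γ` are not a geometric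
progression `a, a c, …, a c ^ (n_i - 1)`, or another unipotent element (not `1`) has more than one block.

**Theorem.** Then `V = ⊕ V_i` is semisimple under every subgroup of finite index, and the following are
equivalent: (i) no two of the `V_i` are isomorphic over a subgroup of finite index; (ii) all homomorphisms
between twisted tensor powers of `V` (of the same weight) over subgroups of finite index are
linear combinations of products of the polarizations of the `M_i`.

So if (i) holds, all Tate classes in the tensor category generated by the `M_i` are motivated: for
`M = ⊕ M_i` the last equality `G_mot = 𝒢(r_ℓ(M))^0` of the conjecture is true, and both groups are the group of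
all similitudes of the polarizations of the `M_i` with a common factor. (If some of the `V_i` are
isomorphic one can omit one of them for the computation of the group.)

Example. The powers of the exceptions in (3) (b), `Sym ^ (n - 1) H^1(E)` for an elliptic curve `E`, satisfy
all the conditions except the last one in (b), and there are other Tate classes. Calabi-Yau
threefolds with `b_3 = 6`, a degeneration with two blocks of length `3` and a conifold point satisfy
(1), (2) and (3).

The proof. (A) Strong irreducibility of `V_i` from (1) and (2), by the `ℓ`-adic six exponentials theorem
(library, `two_weights`): see `Pool.Agent.H20.TB.Strong`, `Pool.Agent.H20.TB.Global`. (B) The commutant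
of a subgroup of finite index is `ℚ_ℓ`: it preserves the image of `N ^ m` in the kernel of `N`, and for a
length `m + 1` which occurs once this gives an eigenvector. (C) The Lie algebra of the endomorphisms of `V`
which kill all Tate classes contains the logarithms `N` of the unipotent elements; its image in
`End V_i` is `𝔰𝔭(V_i)`, for type (a) and the second case of (b) by library theorems over the
algebraic closure (`Pool.Agent.X292.SP.Gen`); in the last case of (b), if the image is not `𝔰𝔭(V_i)` it is
spanned by a principal triple, and then its nilpotent elements have one block. (D) By Goursat's lemma, if
the Lie algebra is not the product of the `𝔰𝔭(V_i)`, then it is on some `V_i ⊕ V_j` the graph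
of an isomorphism. Such an isomorphism maps the elements of rank one, which are the extremal
elements, to elements of rank one, and it is induced by a linear map `V_j → V_i`, which is unique up to
scalars and preserves the polarizations up to a scalar: so it is an isomorphism of
representations up to a quadratic character of `Γ`, over any field (`exists_link`, `exists_iso_of_link`).
-/

namespace Pool.Agent.Results.MP_b8862a_ag.JordanTypes

open Pool.Agent.H20.TB Module

/-- **Tate classes and the Jordan types of local monodromy.** -/
theorem result {ℓ : ℕ} [Fact ℓ.Prime] {Γ : Type} [Group Γ] {ι : Type} [Fintype ι] {V : ι → Type}
    [∀ i, AddCommGroup (V i)] [∀ i, Module ℚ_[ℓ] (V i)] [∀ i, FiniteDimensional ℚ_[ℓ] (V i)]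
    (R : Family ℚ_[ℓ] V Γ)
    (h₁ : ∀ i d, 0 < d → 2 * d ≤ finrank ℚ_[ℓ] (V i) →
      DegreeExcludes (R.ρ i) d ∨ PlaceExcludes (R.ρ i) R.χ d)
    (h₂ : ∀ i d, 0 < d → 2 * d ≤ finrank ℚ_[ℓ] (V i) → Even d →
      DegreeExcludes (R.ρ i) d ∨ UnipotentExcludes (R.ρ i) R.χ d)
    (h₃ : ∀ i, R.BigAt i) :
    Semisimple R.sum ∧ (R.TateClasses ↔ R.Distinct) :=
  main2 R h₁ h₂ h₃

end Pool.Agent.Results.MP_b8862a_ag.JordanTypes
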